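import Pool.Agent.Lib.MP_5de024_nt.S.TsenX.Proj

/-!
# Norm forms over function fields of curves
-/

set_option autoImplicit false
set_option linter.unusedSectionVars false

namespace Pool.Agent.AB3

open MvPolynomial

section zero

variable {k F ι : Type} [Field k] [CommRing F] [Algebra k F] [Fintype ι]

/-- the part of a polynomial in the direction of a functional -/
noncomputable def tsPart (φ : F →ₗ[k] k) (P : MvPolynomial ι F) : MvPolynomial ι k :=
  ∑ m ∈ P.support, monomial m (φ (coeff m P))

theorem tsPart_coeff (φ : F →ₗ[k] k) (P : MvPolynomial ι F) (m : ι →₀ ℕ) :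
    coeff m (tsPart φ P) = φ (coeff m P) := by
  classical
  rw [tsPart, coeff_sum]
  simp only [coeff_monomial]
  rw [Finset.sum_ite_eq']
  split_ifs with h
  · rfl
  · rw [notMem_support_iff.1 h, map_zero]

theorem tsPart_hom (φ : F →ₗ[k] k) (P : MvPolynomial ι F) {n : ℕ} (hP : P.IsHomogeneous n) :
    (tsPart φ P).IsHomogeneous n := by
  intro m hm
  apply hP
  rw [tsPart_coeff] at hm
  intro h
  rw [h, map_zero] at hm
  exact hm rfl

theorem tsPart_eval (φ : F →ₗ[k] k) (P : MvPolynomial ι F) (a : ι → k) :
    eval a (tsPart φ P) = φ (eval (fun i => algebraMap k F (a i)) P) := by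
  rw [tsPart, map_sum]
  conv_rhs => rw [eval_eq, map_sum]
  refine Finset.sum_congr rfl fun m _ => ?_
  rw [eval_monomial, Finsupp.prod]
  have h1 : (∏ i ∈ m.support, algebraMap k F (a i) ^ m i) =
      algebraMap k F (∏ i ∈ m.support, a i ^ m i) := by
    rw [map_prod]
    exact Finset.prod_congr rfl fun i _ => (map_pow _ _ _).symm
  rw [h1, mul_comm (coeff m P), ← Algebra.smul_def, map_smul, smul_eq_mul, mul_comm]

/-- a homogeneous polynomial whose coefficients lie in a space of small dimension has a
nontrivial zero with coordinates in `k` -/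
theorem tsen_zero [IsAlgClosed k] (S : Submodule k F) [FiniteDimensional k S]
    (P : MvPolynomial ι F) {n : ℕ} (hP : P.IsHomogeneous n) (hn : 0 < n)
    (hS : ∀ m, coeff m P ∈ S) (hc : Module.finrank k S < Fintype.card ι) :
    ∃ a : ι → k, a ≠ 0 ∧ eval (fun i => algebraMap k F (a i)) P = 0 := by
  obtain ⟨π, hπ⟩ := LinearMap.exists_leftInverse_of_injective S.subtype
    (Submodule.ker_subtype S)
  let b := Module.finBasis k S
  let φ : Fin (Module.finrank k S) → (F →ₗ[k] k) := fun j => (b.coord j).comp π
  obtain ⟨a, ha, h⟩ := proj_zero (fun j => tsPart (φ j) P) (fun _ => n)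
    (fun j => tsPart_hom _ _ hP) (fun _ => hn) (by rw [Fintype.card_fin]; exact hc)
  refine ⟨a, ha, ?_⟩
  have hmem : eval (fun i => algebraMap k F (a i)) P ∈ S := by
    rw [eval_eq]
    refine Submodule.sum_mem _ fun m _ => ?_
    have h1 : (∏ i ∈ m.support, algebraMap k F (a i) ^ m i) =
        algebraMap k F (∏ i ∈ m.support, a i ^ m i) := by
      rw [map_prod]
      exact Finset.prod_congr rfl fun i _ => (map_pow _ _ _).symm
    rw [h1, mul_comm, ← Algebra.smul_def]
    exact S.smul_mem _ (hS m)
  have hz : (⟨_, hmem⟩ : S) = 0 := by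
    apply b.ext_elem
    intro j
    have h2 := h j
    rw [tsPart_eval] at h2
    have h3 : π (eval (fun i => algebraMap k F (a i)) P) = (⟨_, hmem⟩ : S) :=
      LinearMap.congr_fun hπ (⟨_, hmem⟩ : S)
    change b.coord j (π (eval (fun i => algebraMap k F (a i)) P)) = 0 at h2
    rw [h3] at h2
    rw [map_zero, Finsupp.zero_apply]
    exact h2
  exact congrArg Subtype.val hz

end zero

section lf

variable {k F ι : Type} [Field k] [CommRing F] [Algebra k F] [Fintype ι]

/-- a linear form -/
noncomputable def lf (v : ι → F) : MvPolynomial ι F := ∑ u, C (v u) * X u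

theorem lf_hom (v : ι → F) : (lf v).IsHomogeneous 1 := by
  refine IsHomogeneous.sum _ _ _ fun u _ => ?_
  have := (isHomogeneous_C ι (v u)).mul (isHomogeneous_X F u)
  rwa [zero_add] at this

theorem lf_eval (v : ι → F) (a : ι → F) : eval a (lf v) = ∑ u, v u * a u := by
  rw [lf, map_sum]
  exact Finset.sum_congr rfl fun u _ => by rw [map_mul, eval_C, eval_X]

/-- the coefficients of a product of linear forms -/
theorem coef_prod_lf (S : Submodule k F) {n : ℕ} (v : Fin n → ι → F)
    (h : ∀ φ : Fin n → ι, ∏ i, v i (φ i) ∈ S) (m : ι →₀ ℕ) : coeff m (∏ i, lf (v i)) ∈ S := by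
  classical
  have h1 : ∏ i, lf (v i) = ∑ φ : Fin n → ι, C (∏ i, v i (φ i)) * ∏ i, X (φ i) := by
    unfold lf
    rw [Finset.prod_univ_sum, Fintype.piFinset_univ]
    refine Finset.sum_congr rfl fun φ _ => ?_
    rw [Finset.prod_mul_distrib, map_prod]
  rw [h1, coeff_sum]
  refine Submodule.sum_mem _ fun φ _ => ?_
  have h2 : (∏ i, X (φ i) : MvPolynomial ι F) = monomial (∑ i, Finsupp.single (φ i) 1) 1 := by
    rw [monomial_sum_one]
    rfl
  rw [h2, C_mul_monomial, mul_one, coeff_monomial]
  split_ifs
  · exact h φ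
  · exact S.zero_mem

end lf

/-- function fields of curves, abstractly: `x` is the variable, `f` a basis of the field over
the rational functions in `x` -/
structure FFD (k F : Type) [Field k] [Field F] [Algebra k F] (x : F) (d : ℕ)
    (f : Fin d → F) : Prop where
  indep : LinearIndependent k (fun u : Fin d × ℕ => x ^ u.2 * f u.1)
  spans : ∀ A : Finset F, ∃ D : F, D ≠ 0 ∧ ∃ c : ℕ, ∀ u ∈ A,
    D * u ∈ Submodule.span k (Set.range fun v : Fin d × Fin (c + 1) => x ^ (v.2 : ℕ) * f v.1)

section core

variable {k F : Type} [Field k] [Field F] [Algebra k F]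

/-- the space of the numerators of bounded degree -/
noncomputable def tsW (k : Type) {F : Type} [Field k] [Field F] [Algebra k F] (x : F) {d : ℕ}
    (f : Fin d → F) (c : ℕ) : Submodule k F :=
  Submodule.span k (Set.range fun v : Fin d × Fin (c + 1) => x ^ (v.2 : ℕ) * f v.1)

theorem tsW_finrank (x : F) {d : ℕ} (f : Fin d → F) (c : ℕ) :
    FiniteDimensional k (tsW k x f c) ∧ Module.finrank k (tsW k x f c) ≤ d * (c + 1) := by
  constructor
  · exact FiniteDimensional.span_of_finite k (Set.finite_range _)
  · have := finrank_range_le_card (R := k)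
      (fun v : Fin d × Fin (c + 1) => x ^ (v.2 : ℕ) * f v.1)
    rw [Fintype.card_prod, Fintype.card_fin, Fintype.card_fin] at this
    exact this

theorem tsW_pow (x : F) {d : ℕ} (f : Fin d → F) {c q j : ℕ} (h : c + j ≤ q) {u : F}
    (hu : u ∈ tsW k x f c) : x ^ j * u ∈ tsW k x f q := by
  induction hu using Submodule.span_induction with
  | mem u hu =>
    obtain ⟨v, rfl⟩ := hu
    refine Submodule.subset_span ⟨(v.1, ⟨j + v.2, by have := v.2.isLt; omega⟩), ?_⟩
    simp only
    rw [pow_add, mul_assoc]
  | zero => rw [mul_zero]; exact Submodule.zero_mem _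
  | add a b _ _ ha hb => rw [mul_add]; exact Submodule.add_mem _ ha hb
  | smul c a _ ha =>
    rw [mul_smul_comm]
    exact Submodule.smul_mem _ _ ha

end core

end Pool.Agent.AB3
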