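import Pool.Agent.Lib.MP_5de024_nt.S.TsenX.Core

/-!
# The norm equation over abstract function fields of curves
-/

set_option autoImplicit false
set_option linter.unusedSectionVars false

namespace Pool.Agent.AB3

open MvPolynomial

section form

variable {k F : Type} [Field k] [Field F] [Algebra k F]

/-- the variables: a family of elements of bounded degree -/
abbrev TsV (n d m : ℕ) : Type := Option (Fin n) × Fin d × Fin (m + 1)

/-- a linear form in the unknown elements with coefficients `w` -/
noncomputable def tsForm (x : F) {d : ℕ} (f : Fin d → F) {n : ℕ} (m : ℕ)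
    (w : Option (Fin n) → F) : MvPolynomial (TsV n d m) F :=
  lf fun u => w u.1 * (x ^ (u.2.2 : ℕ) * f u.2.1)

/-- the element of `F` with the given digits -/
noncomputable def tsVal (x : F) {d : ℕ} (f : Fin d → F) {n m : ℕ} (a : TsV n d m → k)
    (o : Option (Fin n)) : F :=
  ∑ v : Fin d × Fin (m + 1), algebraMap k F (a (o, v)) * (x ^ (v.2 : ℕ) * f v.1)

theorem tsForm_hom (x : F) {d : ℕ} (f : Fin d → F) {n : ℕ} (m : ℕ) (w : Option (Fin n) → F) :
    (tsForm x f m w).IsHomogeneous 1 := lf_hom _

theorem tsForm_eval (x : F) {d : ℕ} (f : Fin d → F) {n : ℕ} (m : ℕ) (w : Option (Fin n) → F)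
    (a : TsV n d m → k) : eval (fun i => algebraMap k F (a i)) (tsForm x f m w) =
      ∑ o, w o * tsVal x f a o := by
  rw [tsForm, lf_eval, Fintype.sum_prod_type]
  refine Finset.sum_congr rfl fun o _ => ?_
  rw [tsVal, Finset.mul_sum]
  refine Finset.sum_congr rfl fun v _ => ?_
  ring

theorem tsForm_prod_coeff (x : F) {d : ℕ} (f : Fin d → F) {n : ℕ} (m c : ℕ) (D ρ : F)
    (w : Fin n → Option (Fin n) → F)
    (h : ∀ ψ : Fin n → Option (Fin n) × Fin d,
      D * (ρ * ∏ i, (w i (ψ i).1 * f (ψ i).2)) ∈ tsW k x f c) (e : TsV n d m →₀ ℕ) :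
    D * (ρ * coeff e (∏ i, tsForm x f m (w i))) ∈ tsW k x f (c + n * m) := by
  have key := coef_prod_lf
    (Submodule.comap (LinearMap.mulLeft k (D * ρ)) (tsW k x f (c + n * m)))
    (fun (i : Fin n) (u : TsV n d m) => w i u.1 * (x ^ (u.2.2 : ℕ) * f u.2.1)) ?_ e
  · have h1 : (D * ρ) * coeff e (∏ i, tsForm x f m (w i)) ∈ tsW k x f (c + n * m) := key
    rwa [mul_assoc] at h1
  · intro φ
    change (D * ρ) * (∏ i, (w i (φ i).1 * (x ^ ((φ i).2.2 : ℕ) * f (φ i).2.1))) ∈
      tsW k x f (c + n * m)
    have h1 : (∏ i, (w i (φ i).1 * (x ^ ((φ i).2.2 : ℕ) * f (φ i).2.1))) =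
        x ^ (∑ i, ((φ i).2.2 : ℕ)) * ∏ i, (w i (φ i).1 * f (φ i).2.1) := by
      rw [← Finset.prod_pow_eq_pow_sum, ← Finset.prod_mul_distrib]
      refine Finset.prod_congr rfl fun i _ => ?_
      ring
    rw [h1]
    have h2 := tsW_pow (k := k) x f (c := c) (q := c + n * m) (j := ∑ i, ((φ i).2.2 : ℕ)) ?_
      (h fun i => ((φ i).1, (φ i).2.1))
    · have h3 : D * ρ * (x ^ (∑ i, ((φ i).2.2 : ℕ)) * ∏ i, (w i (φ i).1 * f (φ i).2.1)) =
          x ^ (∑ i, ((φ i).2.2 : ℕ)) * (D * (ρ * ∏ i, (w i (φ i).1 * f (φ i).2.1))) := by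
        ring
      rw [h3]
      exact h2
    · have h4 : ∑ i : Fin n, ((φ i).2.2 : ℕ) ≤ ∑ _i : Fin n, m :=
        Finset.sum_le_sum fun i _ => by have := (φ i).2.2.isLt; omega
      rw [Finset.sum_const, Finset.card_univ, Fintype.card_fin, smul_eq_mul] at h4
      omega

theorem FFD.pos {x : F} {d : ℕ} {f : Fin d → F} (h : FFD k F x d f) : 0 < d := by
  rcases Nat.eq_zero_or_pos d with rfl | hd
  · exfalso
    obtain ⟨D, hD, c, hc⟩ := h.spans {1}
    have h1 := hc 1 (Finset.mem_singleton_self _)
    rw [Set.range_eq_empty, Submodule.span_empty, Submodule.mem_bot, mul_one] at h1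
    exact hD h1
  · exact hd

theorem FFD.val_zero {x : F} {d : ℕ} {f : Fin d → F} (h : FFD k F x d f) {n m : ℕ}
    (a : TsV n d m → k) (o : Option (Fin n)) (ho : tsVal x f a o = 0) (v : Fin d × Fin (m + 1)) :
    a (o, v) = 0 := by
  have h1 : LinearIndependent k
      (fun v : Fin d × Fin (m + 1) => x ^ (v.2 : ℕ) * f v.1) := by
    have := h.indep.comp (fun v : Fin d × Fin (m + 1) => (v.1, (v.2 : ℕ))) (by
      rintro ⟨a1, a2⟩ ⟨b1, b2⟩ hab
      simp only [Prod.mk.injEq] at hab
      exact Prod.ext hab.1 (Fin.ext hab.2))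
    exact this
  refine Fintype.linearIndependent_iff.1 h1 (fun v => a (o, v)) ?_ v
  rw [← ho, tsVal]
  exact Finset.sum_congr rfl fun v _ => Algebra.smul_def _ _

end form

section main

variable {k F L : Type} [Field k] [IsAlgClosed k] [Field F] [Algebra k F] [Field L]
  [Algebra F L] [FiniteDimensional F L]

/-- the coefficients of the norm form -/
noncomputable def tsMat {n : ℕ} (B : Module.Basis (Fin n) F L) (i i' : Fin n) :
    Option (Fin n) → F
  | none => 0
  | some s => Algebra.leftMulMatrix B (B s) i i'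

/-- the coefficient of the last unknown -/
def tsLast (F : Type) [Field F] (n : ℕ) : Option (Fin n) → F
  | none => 1
  | some _ => 0

/-- **Tsen.** Every element of the function field of a curve is a norm. -/
theorem tsen_ffd {x : F} {d : ℕ} {f : Fin d → F} (h : FFD k F x d f) (r : F) :
    ∃ z : L, Algebra.norm F z = r := by
  classical
  let n := Module.finrank F L
  have hn : 0 < n := Module.finrank_pos
  let B : Module.Basis (Fin n) F L := Module.finBasis F L
  let A : Finset F :=
    (Finset.univ.image fun p : Equiv.Perm (Fin n) × (Fin n → Option (Fin n) × Fin d) =>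
      1 * ∏ i, (tsMat B (p.1 i) i (p.2 i).1 * f (p.2 i).2)) ∪
    (Finset.univ.image fun ψ : Fin n → Option (Fin n) × Fin d =>
      r * ∏ i, (tsLast F n (ψ i).1 * f (ψ i).2))
  obtain ⟨D, hD, c, hc⟩ := h.spans A
  let m := c + 1
  let P1 : MvPolynomial (TsV n d m) F :=
    (Matrix.of fun i i' => tsForm x f m (tsMat B i i')).det
  let P2 : MvPolynomial (TsV n d m) F := C r * ∏ _i : Fin n, tsForm x f m (tsLast F n)
  let P : MvPolynomial (TsV n d m) F := C D * (P1 - P2)
  have hP1 : P1.IsHomogeneous n := by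
    change (Matrix.of fun i i' => tsForm x f m (tsMat B i i')).det.IsHomogeneous n
    rw [Matrix.det_apply]
    refine IsHomogeneous.sum _ _ _ fun σ _ => ?_
    have h1 := IsHomogeneous.prod (Finset.univ : Finset (Fin n))
      (fun i => tsForm x f m (tsMat B (σ i) i)) (fun _ => 1) (fun i _ => tsForm_hom x f m _)
    rw [Finset.sum_const, Finset.card_univ, Fintype.card_fin, smul_eq_mul, mul_one] at h1
    rcases Int.units_eq_one_or (Equiv.Perm.sign σ) with hs | hs
    · rw [hs, one_smul]; exact h1
    · rw [hs, Units.neg_smul, one_smul]; exact h1.neg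
  have hP2 : P2.IsHomogeneous n := by
    have h1 := IsHomogeneous.prod (Finset.univ : Finset (Fin n))
      (fun _ => tsForm x f m (tsLast F n)) (fun _ => 1) (fun i _ => tsForm_hom x f m _)
    rw [Finset.sum_const, Finset.card_univ, Fintype.card_fin, smul_eq_mul, mul_one] at h1
    have h2 := (isHomogeneous_C (TsV n d m) r).mul h1
    rwa [zero_add] at h2
  have hP : P.IsHomogeneous n := by
    have h2 := (isHomogeneous_C (TsV n d m) D).mul (hP1.sub hP2)
    rwa [zero_add] at h2
  have hcoef : ∀ e, coeff e P ∈ tsW k x f (c + n * m) := by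
    intro e
    change coeff e (C D * (P1 - P2)) ∈ _
    rw [coeff_C_mul, coeff_sub, mul_sub]
    refine Submodule.sub_mem _ ?_ ?_
    · change D * coeff e (Matrix.det _) ∈ _
      rw [Matrix.det_apply, coeff_sum, Finset.mul_sum]
      refine Submodule.sum_mem _ fun σ _ => ?_
      have h1 := tsForm_prod_coeff (k := k) x f m c D 1 (fun i => tsMat B (σ i) i)
        (fun ψ => hc _ (Finset.mem_union_left _
          (Finset.mem_image.2 ⟨(σ, ψ), Finset.mem_univ _, rfl⟩))) e
      rw [one_mul] at h1
      rcases Int.units_eq_one_or (Equiv.Perm.sign σ) with hs | hs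
      · rw [hs, one_smul]; exact h1
      · rw [hs, Units.neg_smul, one_smul, coeff_neg, mul_neg]
        exact Submodule.neg_mem _ h1
    · change D * coeff e (C r * _) ∈ _
      rw [coeff_C_mul]
      exact tsForm_prod_coeff (k := k) x f m c D r (fun _ => tsLast F n)
        (fun ψ => hc _ (Finset.mem_union_right _
          (Finset.mem_image.2 ⟨ψ, Finset.mem_univ _, rfl⟩))) e
  obtain ⟨hfin, hrank⟩ := tsW_finrank (k := k) x f (c + n * m)
  obtain ⟨a, ha, hPa⟩ := tsen_zero (tsW k x f (c + n * m)) P hP hn hcoef (by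
    refine lt_of_le_of_lt hrank ?_
    rw [Fintype.card_prod, Fintype.card_option, Fintype.card_prod, Fintype.card_fin,
      Fintype.card_fin, Fintype.card_fin]
    have hd := h.pos
    have e1 : d * (c + n * m + 1) = (n + 1) * (d * (c + 1)) := by
      change d * (c + n * (c + 1) + 1) = _
      ring
    rw [e1]
    change (n + 1) * (d * (c + 1)) < (n + 1) * (d * (c + 1 + 1))
    exact Nat.mul_lt_mul_of_pos_left (Nat.mul_lt_mul_of_pos_left (Nat.lt_succ_self _) hd)
      (Nat.succ_pos n))
  let z : L := ∑ s, tsVal x f a (some s) • B s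
  let w : F := tsVal x f a none
  have hdet : Algebra.norm F z = r * w ^ n := by
    have h1 : D * (eval (fun i => algebraMap k F (a i)) P1 -
        eval (fun i => algebraMap k F (a i)) P2) = 0 := by
      rw [← map_sub, ← hPa]
      change _ = eval _ (C D * (P1 - P2))
      rw [map_mul, eval_C]
    have h2 := sub_eq_zero.1 ((mul_eq_zero.1 h1).resolve_left hD)
    have h3 : eval (fun i => algebraMap k F (a i)) P1 = Algebra.norm F z := by
      change eval _ (Matrix.det _) = _
      rw [RingHom.map_det, Algebra.norm_eq_matrix_det B]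
      congr 1
      ext i i'
      rw [RingHom.mapMatrix_apply, Matrix.map_apply, Matrix.of_apply, tsForm_eval,
        Fintype.sum_option]
      change 0 * _ + _ = _
      rw [zero_mul, zero_add]
      change _ = Algebra.leftMulMatrix B (∑ s, tsVal x f a (some s) • B s) i i'
      rw [map_sum, Matrix.sum_apply]
      refine Finset.sum_congr rfl fun s _ => ?_
      rw [map_smul, Matrix.smul_apply, smul_eq_mul, mul_comm]
      rfl
    have h4 : eval (fun i => algebraMap k F (a i)) P2 = r * w ^ n := by
      change eval _ (C r * ∏ _i : Fin n, tsForm x f m (tsLast F n)) = _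
      rw [map_mul, eval_C, map_prod, Finset.prod_const, Finset.card_univ, Fintype.card_fin,
        tsForm_eval, Fintype.sum_option]
      congr 2
      change 1 * w + ∑ s, 0 * _ = w
      rw [one_mul, Finset.sum_eq_zero (fun s _ => zero_mul _), add_zero]
    rw [← h3, h2, h4]
  have hw : w ≠ 0 := by
    intro hw
    rw [hw, zero_pow hn.ne', mul_zero, Algebra.norm_eq_zero_iff] at hdet
    apply ha
    have h1 : ∀ s, tsVal x f a (some s) = 0 := by
      exact Fintype.linearIndependent_iff.1 B.linearIndependent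
        (fun s => tsVal x f a (some s)) hdet
    funext u
    obtain ⟨o, v⟩ := u
    cases o with
    | none => exact h.val_zero a none hw v
    | some s => exact h.val_zero a (some s) (h1 s) v
  refine ⟨algebraMap F L w⁻¹ * z, ?_⟩
  rw [map_mul, Algebra.norm_algebraMap, hdet]
  change w⁻¹ ^ n * (r * w ^ n) = r
  rw [inv_pow]
  field_simp

end main

end Pool.Agent.AB3
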