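import Mathlib

/-!
# The projective dimension theorem (from Krull's height theorem)
-/

set_option autoImplicit false
set_option linter.unusedSectionVars false

namespace Pool.Agent.AB3

open MvPolynomial

section proj

variable {k ι : Type} [Field k] [Fintype ι]

/-- kill the first `i` variables -/
noncomputable def prEv (k : Type) {ι : Type} [Field k] {N : ℕ} (e : ι ≃ Fin N) (i : ℕ) :
    MvPolynomial ι k →ₐ[k] MvPolynomial ι k :=
  aeval fun j => if (e j).val < i then 0 else X j

theorem prEv_X {N : ℕ} (e : ι ≃ Fin N) (i : ℕ) (j : ι) :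
    prEv k e i (X j) = if (e j).val < i then 0 else X j := by
  rw [prEv, aeval_X]

/-- the prime ideal generated by the first `i` variables -/
noncomputable def prP (k : Type) {ι : Type} [Field k] {N : ℕ} (e : ι ≃ Fin N) (i : ℕ) :
    Ideal (MvPolynomial ι k) := RingHom.ker (prEv k e i)

theorem prP_prime {N : ℕ} (e : ι ≃ Fin N) (i : ℕ) : (prP k e i).IsPrime :=
  RingHom.ker_isPrime _

theorem prP_lt {N : ℕ} (e : ι ≃ Fin N) {i : ℕ} (hi : i < N) : prP k e i < prP k e (i + 1) := by
  have hcomp : (prEv k e (i + 1)).comp (prEv k e i) = prEv k e (i + 1) := by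
    apply MvPolynomial.algHom_ext
    intro j
    rw [AlgHom.comp_apply, prEv_X]
    by_cases h : (e j).val < i
    · rw [if_pos h, map_zero, prEv_X, if_pos (by omega)]
    · rw [if_neg h]
  refine lt_of_le_of_ne ?_ ?_
  · intro p hp
    have h1 : prEv k e i p = 0 := hp
    change prEv k e (i + 1) p = 0
    rw [← hcomp, AlgHom.comp_apply, h1, map_zero]
  · intro heq
    have h1 : (X (e.symm ⟨i, hi⟩) : MvPolynomial ι k) ∈ prP k e (i + 1) := by
      change prEv k e (i + 1) _ = 0
      rw [prEv_X, if_pos (by rw [Equiv.apply_symm_apply]; exact Nat.lt_succ_self i)]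
    rw [← heq] at h1
    have h2 : prEv k e i (X (e.symm ⟨i, hi⟩)) = 0 := h1
    rw [prEv_X, if_neg (by rw [Equiv.apply_symm_apply]; exact lt_irrefl i)] at h2
    exact X_ne_zero _ h2

theorem prP_height {N : ℕ} (e : ι ≃ Fin N) (i : ℕ) (hi : i ≤ N) :
    (i : ℕ∞) ≤ (prP k e i).height := by
  induction i with
  | zero => simp
  | succ i ih =>
    have h1 := prP_prime (k := k) e i
    have h2 := prP_prime (k := k) e (i + 1)
    have h3 := Ideal.height_add_one_le_of_lt_of_isPrime (prP_lt (k := k) e (show i < N by omega))
    refine le_trans ?_ h3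
    push_cast
    gcongr
    exact ih (by omega)

/-- **Projective dimension theorem.** Fewer homogeneous polynomials of positive degree than
variables over an algebraically closed field have a nontrivial common zero. -/
theorem proj_zero [IsAlgClosed k] {κ : Type} [Fintype κ] (f : κ → MvPolynomial ι k)
    (d : κ → ℕ) (hf : ∀ j, (f j).IsHomogeneous (d j)) (hd : ∀ j, 0 < d j)
    (hcard : Fintype.card κ < Fintype.card ι) :
    ∃ a : ι → k, a ≠ 0 ∧ ∀ j, eval a (f j) = 0 := by
  classical
  by_contra hcon
  push Not at hcon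
  let e := Fintype.equivFin ι
  let N := Fintype.card ι
  let I : Ideal (MvPolynomial ι k) := Ideal.span (Finset.univ.image f : Finset _)
  have hP := prP_prime (k := k) e N
  have hev0 : ∀ j, eval (0 : ι → k) (f j) = 0 := by
    intro j
    have h1 : coeff 0 (f j) = 0 := by
      by_contra h
      have := hf j h
      simp at this
      exact (hd j).ne' this.symm
    rw [← h1, ← constantCoeff_eq]
    exact (congrArg (fun g : MvPolynomial ι k →+* k => g (f j)) (by
      apply MvPolynomial.ringHom_ext <;> simp))
  have hPN : ∀ p : MvPolynomial ι k, p ∈ prP k e N ↔ eval (0 : ι → k) p = 0 := by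
    intro p
    have h1 : prEv k e N = (Algebra.ofId k (MvPolynomial ι k)).comp
        (aeval (0 : ι → k) : MvPolynomial ι k →ₐ[k] k) := by
      apply MvPolynomial.algHom_ext
      intro j
      rw [prEv_X, if_pos (e j).isLt, AlgHom.comp_apply, aeval_X]
      simp
    change prEv k e N p = 0 ↔ _
    rw [h1, AlgHom.comp_apply]
    constructor
    · intro h
      have h2 : aeval (0 : ι → k) p = 0 := by
        apply C_injective ι k
        rw [map_zero]
        exact h
      rw [← h2, aeval_def, eval₂_eq_eval_map]
      simp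
    · intro h
      have h2 : aeval (0 : ι → k) p = 0 := by
        rw [← h, aeval_def, eval₂_eq_eval_map]
        simp
      rw [h2, map_zero]
  have hIP : I ≤ prP k e N := by
    rw [Ideal.span_le]
    intro p hp
    rw [Finset.coe_image] at hp
    obtain ⟨j, -, rfl⟩ := hp
    exact (hPN _).2 (hev0 j)
  have hrad : prP k e N ≤ I.radical := by
    rw [← MvPolynomial.vanishingIdeal_zeroLocus_eq_radical (K := k) I]
    intro p hp
    rw [MvPolynomial.mem_vanishingIdeal_iff]
    intro a ha
    have ha0 : a = 0 := by
      by_contra hne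
      obtain ⟨j, hj⟩ := hcon a hne
      apply hj
      have h1 := MvPolynomial.mem_zeroLocus_iff.1 ha (f j)
        (Ideal.subset_span (by rw [Finset.coe_image]; exact ⟨j, by simp, rfl⟩))
      rw [← h1, aeval_def, eval₂_eq_eval_map]
      simp
    rw [ha0]
    have := (hPN p).1 hp
    rw [← this, aeval_def, eval₂_eq_eval_map]
    simp
  have hmin : prP k e N ∈ I.minimalPrimes := by
    refine ⟨⟨hP, hIP⟩, ?_⟩
    rintro Q ⟨hQ, hIQ⟩ _
    exact hrad.trans (hQ.radical_le_iff.2 hIQ)
  have h1 := Ideal.height_le_card_of_mem_minimalPrimes_span_finset hmin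
  have h2 := prP_height (k := k) e N le_rfl
  have h3 : (Finset.univ.image f).card ≤ Fintype.card κ := Finset.card_image_le
  have h4 : ((N : ℕ) : ℕ∞) ≤ ((Finset.univ.image f).card : ℕ∞) := h2.trans h1
  have h5 : N ≤ (Finset.univ.image f).card := by exact_mod_cast h4
  omega

end proj

end Pool.Agent.AB3
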